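import Pool.Agent.H55.IsoCount

/-!
# The number of maximal isotropic spaces of an alternating matrix space

`M n F` is the maximum number of maximal isotropic spaces of an alternating matrix space of
`n × n` matrices over the finite field `F` (definitions in `Pool/Agent/H55/IsoDefs.lean`, proofs in
`Pool/Agent/H55/IsoCount.lean`).
-/

open Pool.Agent.H55.IsoSpaces

namespace Pool.Agent.Results.MP_cd3971_co.ExponentOneEighth

/-- Growth of the maximal number of maximal isotropic spaces. With `q` the number of elements of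
`F`: for every `n ≥ 1`, `q ^ ((n² - 1) / 8) ≤ M n F ≤ 20 q ^ ((n + 1)² / 8)`; for even `n`,
`q ^ (n (n + 2) / 8) ≤ M n F ≤ 16 q ^ (n (n + 2) / 8)`; for odd `n ≥ 17`,
`q ^ ((n² + 7) / 8) ≤ M n F ≤ 2 ^ 14 q ^ ((n² + 7) / 8)`. -/
theorem result (F : Type*) [Field F] [Fintype F] (n : ℕ) (hn : 1 ≤ n) :
    ((Fintype.card F : ℝ) ^ (((n : ℝ) ^ 2 - 1) / 8) ≤ M n F ∧
      (M n F : ℝ) ≤ 20 * (Fintype.card F : ℝ) ^ (((n : ℝ) + 1) ^ 2 / 8)) ∧
    (Even n → Fintype.card F ^ (n * (n + 2) / 8) ≤ M n F ∧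
      M n F ≤ 16 * Fintype.card F ^ (n * (n + 2) / 8)) ∧
    (Odd n → 17 ≤ n → Fintype.card F ^ ((n ^ 2 + 7) / 8) ≤ M n F ∧
      M n F ≤ 2 ^ 14 * Fintype.card F ^ ((n ^ 2 + 7) / 8)) :=
  main F n hn

end Pool.Agent.Results.MP_cd3971_co.ExponentOneEighth
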